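import Pool.Agent.Helper43_HAM.Stmts

/-!
# Squad HAM, module CRS: the crossing gadget
-/

set_option autoImplicit false

namespace Pool.Agent.HAM.H9

open Pool.Agent.HAM

theorem app_vtx (w : List Op) (F : List (Fin 3) → ZMod 2) (i a b : ℕ) (l m r : List (Fin 3))
    (hi : i = l.length) (ha : a = m.length) :
    app (.vtx i a b :: w) F (l ++ (m ++ r)) =
      ∑ v : Fin 3, if v ∈ m then 0 else app w F (l ++ (List.replicate b v ++ r)) := by
  subst hi ha
  have h1 : ((l ++ (m ++ r)).drop l.length).take m.length = m := by simp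
  have h2 : (l ++ (m ++ r)).take l.length = l := by simp
  have h3 : (l ++ (m ++ r)).drop (l.length + m.length) = r := by
    rw [← List.drop_drop]
    simp
  simp only [app, h1, h2, h3, List.append_assoc]

theorem fincheck : ∀ (a b c d : ZMod 2) (x y : Fin 3),
    let G : Fin 3 → Fin 3 → ZMod 2 := ![![a, b, a + b], ![c, d, c + d], ![a + c, b + d, a + b + c + d]]
    (∑ v₁ : Fin 3, if v₁ ∈ [x] then 0 else ∑ v₂ : Fin 3, if v₂ ∈ [v₁, y] then 0 else
      ∑ v₃ : Fin 3, if v₃ ∈ [v₁, v₂] then 0 else ∑ v₄ : Fin 3, if v₄ ∈ [v₁, v₃] then 0 else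
        G v₄ v₃) = G y x := by
  decide

theorem crs : CrsStmt := by
  intro F hF l r x y
  have key : ∀ G : Fin 3 → Fin 3 → ZMod 2, (∀ b, ∑ a : Fin 3, G a b = 0) →
      (∀ a, ∑ b : Fin 3, G a b = 0) →
      (∑ v₁ : Fin 3, if v₁ ∈ [x] then 0 else ∑ v₂ : Fin 3, if v₂ ∈ [v₁, y] then 0 else
      ∑ v₃ : Fin 3, if v₃ ∈ [v₁, v₂] then 0 else ∑ v₄ : Fin 3, if v₄ ∈ [v₁, v₃] then 0 else
        G v₄ v₃) = G y x := by
    intro G h1 h2
    have two : ∀ a b c : ZMod 2, a + b + c = 0 → c = a + b := by decide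
    have e1 := h1 0
    have e2 := h1 1
    have e3 := h2 0
    have e4 := h2 1
    have e5 := h2 2
    simp only [Fin.sum_univ_three] at e1 e2 e3 e4 e5
    have g20 := two _ _ _ e1
    have g21 := two _ _ _ e2
    have g02 := two _ _ _ e3
    have g12 := two _ _ _ e4
    have g22 := two _ _ _ e5
    have hG : G = ![![G 0 0, G 0 1, G 0 0 + G 0 1], ![G 1 0, G 1 1, G 1 0 + G 1 1],
        ![G 0 0 + G 1 0, G 0 1 + G 1 1, G 0 0 + G 0 1 + G 1 0 + G 1 1]] := by
      funext i j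
      fin_cases i <;> fin_cases j <;> simp
      · exact g02
      · exact g12
      · exact g20
      · exact g21
      · rw [g22, g20, g21]
        ring
    have := fincheck (G 0 0) (G 0 1) (G 1 0) (G 1 1) x y
    rw [hG]
    exact this
  have := key (fun a b => F (l ++ (a :: b :: r))) (fun b => hF l (b :: r)) (fun a => by
    have := hF (l ++ [a]) r
    simpa using this)
  rw [← this]
  show app (.vtx (0 + l.length) 1 3 :: .vtx (2 + l.length) 2 1 :: .vtx (1 + l.length) 2 2 ::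
    .vtx (0 + l.length) 2 1 :: []) F (l ++ ([x] ++ (y :: r))) = _
  rw [app_vtx _ F _ 1 3 l [x] (y :: r) (by simp) rfl]
  refine Finset.sum_congr rfl fun v₁ _ => ?_
  split_ifs with h
  · rfl
  have s1 : l ++ (List.replicate 3 v₁ ++ (y :: r)) = (l ++ [v₁, v₁]) ++ ([v₁, y] ++ r) := by
    simp [List.replicate]
  rw [s1, app_vtx _ F _ 2 1 (l ++ [v₁, v₁]) [v₁, y] r (by simp [add_comm]) rfl]
  refine Finset.sum_congr rfl fun v₂ _ => ?_
  split_ifs with h
  · rfl
  have s2 : (l ++ [v₁, v₁]) ++ (List.replicate 1 v₂ ++ r) = (l ++ [v₁]) ++ ([v₁, v₂] ++ r) := by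
    simp [List.replicate]
  rw [s2, app_vtx _ F _ 2 2 (l ++ [v₁]) [v₁, v₂] r (by simp [add_comm]) rfl]
  refine Finset.sum_congr rfl fun v₃ _ => ?_
  split_ifs with h
  · rfl
  have s3 : (l ++ [v₁]) ++ (List.replicate 2 v₃ ++ r) = l ++ ([v₁, v₃] ++ (v₃ :: r)) := by
    simp [List.replicate]
  rw [s3, app_vtx _ F _ 2 1 l [v₁, v₃] (v₃ :: r) (by simp) rfl]
  refine Finset.sum_congr rfl fun v₄ _ => ?_
  split_ifs with h
  · rfl
  simp [app, List.replicate]

end Pool.Agent.HAM.H9
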